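import Pool.Agent.GQA.Thm
import Pool.Agent.GQA.Points
import Pool.Agent.Gsc.TwoGs

/-!
# MP_a6a2ff_al, Q1: a regular graded skew Clifford algebra of global dimension four with exactly
two point modules, over every algebraically closed field of characteristic different from two
and five
-/

universe u

namespace Pool.Agent.Results.MP_a6a2ff_al.TwoPointsGSCA

open Pool.Agent.MP_a6a2ff_al Pool.Agent.Gsc

/-- Over every algebraically closed field `k` with `2 ≠ 0` and `5 ≠ 0` there is a connected graded
algebra `A` which is a graded skew Clifford algebra, is quadratic and Artin-Schelter regular of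
global dimension four, has Hilbert function `n ↦ (n + 3).choose 3`, and has exactly two point
modules up to graded isomorphism. -/
theorem result (k : Type u) [Field k] [IsAlgClosed k] (h2 : (2 : k) ≠ 0) (h5 : (5 : k) ≠ 0) :
    ∃ (A : Type u) (_ : Ring A) (_ : Algebra k A) (𝒜 : ℕ → Submodule k A)
      (_ : GradedAlgebra 𝒜),
      IsGSCA 𝒜 4 ∧ IsQuadratic 𝒜 ∧ IsASRegular 𝒜 4 ∧
        (∀ n : ℕ, Module.finrank k (𝒜 n) = (n + 3).choose 3) ∧
        Nat.card (PointModuleClass 𝒜) = 2 := by
  obtain ⟨i, hi'⟩ := IsAlgClosed.exists_pow_nat_eq (-1 : k) (n := 2) (by norm_num)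
  have hi : i * i = -1 := by rw [← sq]; exact hi'
  obtain ⟨A, i1, i2, x, h⟩ := exists_isPres k (r2 i)
  have h' : GQA.IsGPres k A (r2 i) x := ⟨h.rel, h.gen, h.univ⟩
  obtain ⟨hq, hr, hh⟩ := GQA.regular2 i hi h2 h5 h'
  refine ⟨A, i1, i2, powGrading k x, h.gradedAlgebra, isGSCA2 h2 h, hq, hr, hh, ?_⟩
  have hg : GQA.IsGraph (r2 i) (pt2 k) sig2 :=
    { ne_zero := pt2_ne_zero
      inj := pt2_inj
      mem := gam_pt2 i
      classify := fun a b ha hb hab =>
        ((gam_r2_iff i a b).mp hab).classify h2 ha hb (((gam_r2_iff i a b).mp hab).mul_eq_zero hi h2) }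
  refine (h'.card_pointModuleClass hg).trans ?_
  simp

end Pool.Agent.Results.MP_a6a2ff_al.TwoPointsGSCA
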